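import Pool.Agent.Helper22.D3.Fin38
import Pool.Agent.Helper92.TD.Best

/-!
# D3 (MP_fb29e9_nt): exponent 61/98 for the disc, from the class sums (`WP4`) and the Weyl steps (`TD2`)

Ranges (`K = X^κ`): `κ ≤ 12/49` trivial, `12/49 ≤ κ ≤ 13/49` `TD2`, `13/49 ≤ κ ≤ 16/49` `WP4` (twelfth moment), `16/49 ≤ κ ≤ 37/98` the sixth moment `oct_bound0`.
-/

open MeasureTheory Real Set Filter Topology

set_option autoImplicit false

namespace Pool.Agent.Helper22.D3

open Pool.Agent.Helper22.AE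
open Pool.Agent.Helper92.GC (dt sqa oct bs dcnt)
open Pool.Agent.Helper22.OV (Cond osum)
open Pool.Agent.Helper92.CX (OctB asm oct_triv)

/-- the Weyl steps for the disc -/
def TD2 : Prop := ∃ C : ℝ, 0 < C ∧ ∀ (K : ℕ) (R : ℝ), 1 ≤ K → 1 ≤ R → (K : ℝ) ^ 7 ≤ R ^ 2 → R ≤ (K : ℝ) ^ 5 → ∀ i : ℕ, i ≤ 2 → ∀ c : ℝ × ℝ,
  ‖bs (oct K) K i R c‖ ≤ C * ((K : ℝ) ^ 2 * (1 + log K) * (R / (K : ℝ) ^ 5) ^ (1 / 32 : ℝ))

/-- the phase of the disc -/
noncomputable def phd (x : ℝ) : ℝ := sqrt (1 + x ^ 2)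

/-- the weight of the disc -/
noncomputable def Wd (i : ℕ) (x : ℝ) : ℂ := (((1 / sqrt (1 + x ^ 2)) ^ i : ℝ) : ℂ)

theorem phd_pos (x : ℝ) : 0 < phd x := sqrt_pos.2 (by positivity)

theorem phd_one_le (x : ℝ) : 1 ≤ phd x := by
  unfold phd
  rw [Real.one_le_sqrt]
  nlinarith [sq_nonneg x]

theorem phd_contDiff (n : ℕ) : ContDiff ℝ n phd := by
  unfold phd
  exact ContDiff.sqrt (by fun_prop) (fun x => by positivity)

theorem phd_deriv (x : ℝ) : HasDerivAt phd (x / phd x) x := by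
  have h1 : HasDerivAt (fun y : ℝ => 1 + y ^ 2) (2 * x) x := by
    simpa using (hasDerivAt_pow 2 x).const_add 1
  have h2 := h1.sqrt (by positivity)
  unfold phd
  convert h2 using 1
  field_simp

theorem phd_deriv2 (x : ℝ) : HasDerivAt (deriv phd) (1 / phd x ^ 3) x := by
  have he : deriv phd = fun y => y / phd y := funext fun y => (phd_deriv y).deriv
  rw [he]
  have h1 := (hasDerivAt_id x).div (phd_deriv x) (phd_pos x).ne'
  simp only [id] at h1
  have h2 : phd x ^ 2 = 1 + x ^ 2 := sq_sqrt (by positivity)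
  have h3 := (phd_pos x).ne'
  have h4 : (1 * phd x - x * (x / phd x)) / phd x ^ 2 = 1 / phd x ^ 3 := by
    field_simp
    rw [h2]
    ring
  rw [← h4]
  exact h1

theorem phd_cond (i : ℕ) (hi : i = 1 ∨ i = 2) : ∃ B : ℝ, 1 ≤ B ∧ Cond (1 / 125) B phd (Wd i) := by
  have hs : ∀ x : ℝ, deriv (deriv phd) x = 1 / phd x ^ 3 := fun x => (phd_deriv2 x).deriv
  have hc : ∀ n : ℕ, ∃ B : ℝ, 0 ≤ B ∧ ∀ x, |x| ≤ 2 → |iteratedDeriv n phd x| ≤ B := by
    intro n
    have h1 : Continuous (iteratedDeriv n phd) := (phd_contDiff n).continuous_iteratedDeriv n le_rfl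
    obtain ⟨B, hB⟩ := (isCompact_Icc (a := (-2 : ℝ)) (b := 2)).exists_bound_of_continuousOn h1.continuousOn
    exact ⟨|B|, abs_nonneg _, fun x hx => (hB x (abs_le.1 hx)).trans (le_abs_self B)⟩
  obtain ⟨B2, hB20, hB2⟩ := hc 2
  obtain ⟨B3, hB30, hB3⟩ := hc 3
  obtain ⟨B4, hB40, hB4⟩ := hc 4
  have hi2 : iteratedDeriv 2 phd = deriv (deriv phd) := by
    rw [iteratedDeriv_succ, iteratedDeriv_one]
  have hi3 : iteratedDeriv 3 phd = deriv (deriv (deriv phd)) := by
    rw [iteratedDeriv_succ, hi2]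
  have hi4 : iteratedDeriv 4 phd = deriv (deriv (deriv (deriv phd))) := by
    rw [iteratedDeriv_succ, hi3]
  rw [hi2] at hB2
  rw [hi3] at hB3
  rw [hi4] at hB4
  have hq1 : ∀ x : ℝ, 1 / phd x ≤ 1 := fun x => (div_le_one (phd_pos x)).2 (phd_one_le x)
  have hq0 : ∀ x : ℝ, 0 ≤ 1 / phd x := fun x => by
    have := phd_pos x
    positivity
  have hLip : ∀ x y : ℝ, |1 / phd x - 1 / phd y| ≤ 1 * |x - y| := by
    intro x y
    have hd : ∀ z : ℝ, HasDerivAt (fun w => 1 / phd w) (-(z / phd z) / phd z ^ 2) z := by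
      intro z
      have h1 := (phd_deriv z).inv (phd_pos z).ne'
      have h2 : (fun w => 1 / phd w) = phd⁻¹ := by
        funext w
        simp
      rw [h2]
      exact h1
    have hb : ∀ z : ℝ, ‖-(z / phd z) / phd z ^ 2‖ ≤ 1 := by
      intro z
      have h0 := phd_pos z
      have h1 := phd_one_le z
      have h2 : |z| ≤ phd z := by
        unfold phd
        rw [← Real.sqrt_sq_eq_abs]
        exact Real.sqrt_le_sqrt (by linarith)
      rw [norm_div, norm_neg, norm_div, norm_pow, Real.norm_eq_abs, Real.norm_eq_abs, abs_of_pos h0]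
      have h3 : |z| / phd z ≤ 1 := (div_le_one h0).2 h2
      have h4 : 1 ≤ phd z ^ 2 := one_le_pow₀ h1
      exact (div_le_one (by positivity)).2 (h3.trans h4)
    have := Convex.norm_image_sub_le_of_norm_hasDerivWithin_le (s := univ) (fun z _ => (hd z).hasDerivWithinAt)
      (fun z _ => hb z) convex_univ (mem_univ y) (mem_univ x)
    simpa [Real.norm_eq_abs] using this
  refine ⟨max 2 (max B2 (max B3 B4)), (by norm_num : (1 : ℝ) ≤ 2).trans (le_max_left _ _), ?_⟩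
  have hM2 : (2 : ℝ) ≤ max 2 (max B2 (max B3 B4)) := le_max_left _ _
  refine ⟨phd_contDiff 4, ?_, ?_, ?_, ?_, ?_, ?_⟩
  · intro x hx
    rw [hs]
    have h1 : phd x ≤ 5 := by
      unfold phd
      rw [show (5 : ℝ) = sqrt (5 ^ 2) by rw [sqrt_sq (by norm_num)]]
      refine Real.sqrt_le_sqrt ?_
      have := sq_le_sq' (abs_le.1 hx).1 (abs_le.1 hx).2
      linarith
    have h2 : phd x ^ 3 ≤ 125 := by
      calc phd x ^ 3 ≤ 5 ^ 3 := pow_le_pow_left₀ (phd_pos x).le h1 3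
        _ = 125 := by norm_num
    exact one_div_le_one_div_of_le (by have := phd_pos x; positivity) h2
  · intro x hx
    exact (hB2 x hx).trans ((le_max_left _ _).trans (le_max_right _ _))
  · intro x hx
    exact (hB3 x hx).trans ((le_max_left _ _).trans ((le_max_right _ _).trans (le_max_right _ _)))
  · intro x hx
    exact (hB4 x hx).trans ((le_max_right _ _).trans ((le_max_right _ _).trans (le_max_right _ _)))
  · intro x
    have hw : Wd i x = (((1 / phd x) ^ i : ℝ) : ℂ) := rfl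
    rw [hw, Complex.norm_real, norm_pow, Real.norm_of_nonneg (hq0 x)]
    exact (pow_le_one₀ (hq0 x) (hq1 x)).trans (by linarith)
  · intro x y
    have hw : ∀ z, Wd i z = (((1 / phd z) ^ i : ℝ) : ℂ) := fun _ => rfl
    rw [hw, hw, ← Complex.ofReal_sub, Complex.norm_real, Real.norm_eq_abs]
    have h1 := hLip x y
    have h2 : |(1 / phd x) ^ i - (1 / phd y) ^ i| ≤ 2 * |x - y| := by
      rcases hi with rfl | rfl
      · rw [pow_one, pow_one]
        linarith [abs_nonneg (x - y)]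
      · have h3 : (1 / phd x) ^ 2 - (1 / phd y) ^ 2 = (1 / phd x - 1 / phd y) * (1 / phd x + 1 / phd y) := by ring
        rw [h3, abs_mul, abs_of_nonneg (add_nonneg (hq0 x) (hq0 y))]
        have h4 : 1 / phd x + 1 / phd y ≤ 2 := by linarith [hq1 x, hq1 y]
        calc |1 / phd x - 1 / phd y| * (1 / phd x + 1 / phd y) ≤ (1 * |x - y|) * 2 :=
              mul_le_mul h1 h4 (add_nonneg (hq0 x) (hq0 y)) (by positivity)
          _ = 2 * |x - y| := by ring
    exact h2.trans (mul_le_mul_of_nonneg_right hM2 (abs_nonneg _))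

/-- the octant sum of the disc as an octant sum with general phase -/
theorem bs_osum {K : ℕ} (hK : 1 ≤ K) (i : ℕ) (R : ℝ) (c : ℝ × ℝ) : bs (oct K) K i R c = osum K i (Wd i) phd R c := by
  classical
  unfold bs osum
  refine Finset.sum_congr rfl fun k hk => ?_
  have hk1 : (K : ℤ) ≤ k.1 := by
    unfold oct at hk
    exact (Finset.mem_filter.1 hk).2.1
  have hk0 : (0 : ℝ) < (k.1 : ℝ) := by
    have : (1 : ℤ) ≤ k.1 := le_trans (by exact_mod_cast hK) hk1
    exact_mod_cast (by omega : (0 : ℤ) < k.1)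
  have hn : nk k = (k.1 : ℝ) * phd ((k.2 : ℝ) / (k.1 : ℝ)) := by
    have h1 : (k.1 : ℝ) ^ 2 + (k.2 : ℝ) ^ 2 = (k.1 : ℝ) ^ 2 * (1 + ((k.2 : ℝ) / (k.1 : ℝ)) ^ 2) := by
      field_simp
    have h0 : nk k = sqrt ((k.1 : ℝ) ^ 2 + (k.2 : ℝ) ^ 2) := by
      unfold nk cz
      rw [Complex.norm_eq_sqrt_sq_add_sq]
    unfold phd
    rw [h0, h1, sqrt_mul (by positivity), sqrt_sq hk0.le]
  have h2 : (((K : ℝ) / nk k : ℝ) : ℂ) ^ i = (((K : ℝ) / (k.1 : ℝ) : ℝ) : ℂ) ^ i * Wd i ((k.2 : ℝ) / (k.1 : ℝ)) := by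
    unfold Wd
    rw [hn, ← Complex.ofReal_pow, ← Complex.ofReal_pow, ← Complex.ofReal_mul, ← mul_pow]
    congr 2
    unfold phd
    field_simp
  rw [h2, hn]

end Pool.Agent.Helper22.D3
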