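import Pool.Agent.Helper22.D3.Disc

/-!
# D3 (MP_fb29e9_nt): exponent 61/98 for the disc, assembly
-/

open MeasureTheory Real Set Filter Topology

set_option autoImplicit false

namespace Pool.Agent.Helper22.D3

open Pool.Agent.Helper22.AE
open Pool.Agent.Helper92.GC (dt sqa oct bs dcnt)
open Pool.Agent.Helper22.OV (Cond osum)
open Pool.Agent.Helper92.CX (OctB asm oct_triv)

/-- range (A) -/
private lemma rA61 {ε X K : ℝ} (hε : 0 < ε) (hX : 1 ≤ X) (hK1 : 1 ≤ K) (hK : K ≤ X ^ (12 / 49 : ℝ)) :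
    25 * K ^ 2 ≤ 25 * (X ^ (61 / 98 - 1 / 2 + ε) * K ^ (3 / 2 : ℝ)) := by
  have hX0 : 0 < X := by linarith
  have hK0 : 0 < K := by linarith
  obtain ⟨x, rfl⟩ : ∃ x, X = exp x := ⟨log X, (exp_log hX0).symm⟩
  obtain ⟨k, rfl⟩ : ∃ k, K = exp k := ⟨log K, (exp_log hK0).symm⟩
  have hx : 0 ≤ x := one_le_exp_iff.1 hX
  rw [← exp_mul, exp_le_exp] at hK
  have hp : 0 ≤ ε * x := mul_nonneg hε.le hx
  have e : exp k ^ 2 = exp (2 * k) := by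
    rw [← exp_nat_mul]
    norm_num
  rw [e, ← exp_mul, ← exp_mul, ← exp_add]
  refine mul_le_mul_of_nonneg_left (exp_le_exp.2 ?_) (by norm_num)
  nlinarith

/-- range (B) without the logarithm -/
private lemma rB61 {X K : ℝ} (hX : 1 ≤ X) (hK1 : 1 ≤ K) (hK : K ≤ X ^ (13 / 49 : ℝ)) :
    K ^ 2 * (X / K ^ 5) ^ (1 / 32 : ℝ) ≤ X ^ (61 / 98 - 1 / 2 : ℝ) * K ^ (3 / 2 : ℝ) := by
  have hX0 : 0 < X := by linarith
  have hK0 : 0 < K := by linarith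
  obtain ⟨x, rfl⟩ : ∃ x, X = exp x := ⟨log X, (exp_log hX0).symm⟩
  obtain ⟨k, rfl⟩ : ∃ k, K = exp k := ⟨log K, (exp_log hK0).symm⟩
  have hx : 0 ≤ x := one_le_exp_iff.1 hX
  rw [← exp_mul, exp_le_exp] at hK
  have e : exp k ^ 2 = exp (2 * k) := by
    rw [← exp_nat_mul]
    norm_num
  have e5 : exp x / exp k ^ 5 = exp (x - 5 * k) := by
    rw [exp_sub, ← exp_nat_mul]
    norm_num
  rw [e, e5, ← exp_mul, ← exp_mul, ← exp_mul, ← exp_add, ← exp_add]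
  refine exp_le_exp.2 ?_
  nlinarith

/-- the logarithm -/
private lemma log61 {ε X K : ℝ} (hε : 0 < ε) (hX : 1 ≤ X) (hK1 : 1 ≤ K) (hKX : K ≤ X) :
    1 + log K ≤ (1 + 1 / ε) * X ^ ε := by
  have hK0 : 0 < K := by linarith
  have h3 : log K ≤ K ^ ε / ε := log_le_rpow_div hK0.le hε
  have h4 : K ^ ε ≤ X ^ ε := rpow_le_rpow hK0.le hKX hε.le
  have h5 : 1 ≤ X ^ ε := one_le_rpow hX hε.le
  calc 1 + log K ≤ X ^ ε + X ^ ε / ε := by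
        refine add_le_add h5 (h3.trans ?_)
        gcongr
    _ = _ := by ring

/-- range (C1) -/
private lemma rC61 {ε X K : ℝ} (hε : 0 < ε) (hX : 1 ≤ X) (hK1 : 1 ≤ K) (hK : X ^ (13 / 49 : ℝ) ≤ K) :
    X ^ ε * (K ^ (4 / 3 : ℝ) * X ^ (1 / 6 : ℝ)) ≤ X ^ (61 / 98 - 1 / 2 + ε) * K ^ (3 / 2 : ℝ) := by
  have hX0 : 0 < X := by linarith
  have hK0 : 0 < K := by linarith
  obtain ⟨x, rfl⟩ : ∃ x, X = exp x := ⟨log X, (exp_log hX0).symm⟩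
  obtain ⟨k, rfl⟩ : ∃ k, K = exp k := ⟨log K, (exp_log hK0).symm⟩
  have hx : 0 ≤ x := one_le_exp_iff.1 hX
  rw [← exp_mul, exp_le_exp] at hK
  rw [← exp_mul, ← exp_mul, ← exp_mul, ← exp_mul, ← exp_mul, ← exp_add, ← exp_add, ← exp_add]
  refine exp_le_exp.2 ?_
  nlinarith

/-- range (C2) -/
private lemma rD61 {ε X K : ℝ} (hε : 0 < ε) (hX : 1 ≤ X) (hK1 : 1 ≤ K) (hK : K ≤ X ^ (16 / 49 : ℝ)) :
    X ^ ε * (K ^ (5 / 3 : ℝ) * (X * K) ^ (1 / 20 : ℝ)) ≤ X ^ (61 / 98 - 1 / 2 + ε) * K ^ (3 / 2 : ℝ) := by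
  have hX0 : 0 < X := by linarith
  have hK0 : 0 < K := by linarith
  obtain ⟨x, rfl⟩ : ∃ x, X = exp x := ⟨log X, (exp_log hX0).symm⟩
  obtain ⟨k, rfl⟩ : ∃ k, K = exp k := ⟨log K, (exp_log hK0).symm⟩
  have hx : 0 ≤ x := one_le_exp_iff.1 hX
  rw [← exp_mul, exp_le_exp] at hK
  rw [← exp_add]
  rw [← exp_mul, ← exp_mul, ← exp_mul, ← exp_mul, ← exp_mul, ← exp_add, ← exp_add, ← exp_add]
  refine exp_le_exp.2 ?_
  nlinarith

/-- range (D) -/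
private lemma rE61 {ε e C X K : ℝ} (hC : 0 < C) (heε : e ≤ ε) (hX : 1 ≤ X) (hK1 : 1 ≤ K)
    (hK : X ^ (16 / 49 : ℝ) ≤ K) :
    C * X ^ e * K ^ (4 / 3 : ℝ) * (X * K) ^ (2 / 15 : ℝ) ≤ C * (X ^ (61 / 98 - 1 / 2 + ε) * K ^ (3 / 2 : ℝ)) := by
  have hX0 : 0 < X := by linarith
  have hK0 : 0 < K := by linarith
  obtain ⟨x, rfl⟩ : ∃ x, X = exp x := ⟨log X, (exp_log hX0).symm⟩
  obtain ⟨k, rfl⟩ : ∃ k, K = exp k := ⟨log K, (exp_log hK0).symm⟩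
  have hx : 0 ≤ x := one_le_exp_iff.1 hX
  rw [← exp_mul, exp_le_exp] at hK
  have hp : e * x ≤ ε * x := mul_le_mul_of_nonneg_right heε hx
  rw [← exp_add]
  simp only [← exp_mul]
  rw [mul_assoc, mul_assoc, ← exp_add, ← exp_add, ← exp_add]
  refine mul_le_mul_of_nonneg_left (exp_le_exp.2 ?_) hC.le
  nlinarith

private lemma large61 : ∃ X₁ : ℝ, 4 ≤ X₁ ∧ ∀ X R K : ℝ, X₁ ≤ X → X / 4 ≤ R → R ≤ 4 * X → 1 ≤ K →
    (X ^ (12 / 49 : ℝ) ≤ K → K ≤ X ^ (13 / 49 : ℝ) → K ^ 7 ≤ R ^ 2 ∧ R ≤ K ^ 5) ∧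
    (X ^ (13 / 49 : ℝ) ≤ K → R ^ (251 / 1000 : ℝ) ≤ K) ∧ (K ≤ X ^ (16 / 49 : ℝ) → K ≤ R ^ (332 / 1000 : ℝ)) := by
  have ht1 := (tendsto_rpow_atTop (show (0 : ℝ) < 11 / 49 by norm_num)).eventually_ge_atTop 4
  have ht2 := (tendsto_rpow_atTop (show (0 : ℝ) < 1 / 7 by norm_num)).eventually_ge_atTop 16
  have ht3 := (tendsto_rpow_atTop (show (0 : ℝ) < 13 / 49 - 251 / 1000 by norm_num)).eventually_ge_atTop 4
  have ht4 := (tendsto_rpow_atTop (show (0 : ℝ) < 332 / 1000 - 16 / 49 by norm_num)).eventually_ge_atTop 4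
  obtain ⟨A, hA⟩ := (ht1.and (ht2.and (ht3.and ht4))).exists_forall_of_atTop
  refine ⟨max A 4, le_max_right _ _, ?_⟩
  intro X R K hX hR hR4 hK1
  have hX4 : 4 ≤ X := (le_max_right _ _).trans hX
  have hX1 : 1 ≤ X := by linarith
  have hX0 : 0 < X := by linarith
  have hK0 : 0 < K := by linarith
  have hR0 : 0 < R := by linarith
  obtain ⟨h1, h2, h3, h4⟩ := hA X ((le_max_left _ _).trans hX)
  refine ⟨fun hKl hKu => ⟨?_, ?_⟩, fun hKl => ?_, fun hKu => ?_⟩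
  · have h5 : K ^ 7 ≤ (X ^ (13 / 49 : ℝ)) ^ 7 := pow_le_pow_left₀ hK0.le hKu 7
    have h6 : (X ^ (13 / 49 : ℝ)) ^ 7 * X ^ (1 / 7 : ℝ) = X ^ 2 := by
      rw [← rpow_natCast, ← rpow_natCast, ← rpow_mul hX0.le, ← rpow_add hX0]
      norm_num
    have h7 : (X ^ (13 / 49 : ℝ)) ^ 7 * 16 ≤ X ^ 2 := by
      rw [← h6]
      exact mul_le_mul_of_nonneg_left h2 (by positivity)
    have h8 : (X / 4) ^ 2 ≤ R ^ 2 := pow_le_pow_left₀ (by positivity) hR 2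
    nlinarith
  · have h5 : (X ^ (12 / 49 : ℝ)) ^ 5 ≤ K ^ 5 := pow_le_pow_left₀ (by positivity) hKl 5
    have h6 : (X ^ (12 / 49 : ℝ)) ^ 5 = X ^ (11 / 49 : ℝ) * X := by
      rw [← rpow_natCast, ← rpow_mul hX0.le]
      nth_rewrite 3 [← rpow_one X]
      rw [← rpow_add hX0]
      norm_num
    have h7 : 4 * X ≤ X ^ (11 / 49 : ℝ) * X := mul_le_mul_of_nonneg_right h1 hX0.le
    linarith
  · refine le_trans ?_ hKl
    have h5 : (4 : ℝ) ^ (251 / 1000 : ℝ) ≤ 4 := by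
      calc (4 : ℝ) ^ (251 / 1000 : ℝ) ≤ 4 ^ (1 : ℝ) := rpow_le_rpow_of_exponent_le (by norm_num) (by norm_num)
        _ = 4 := rpow_one _
    calc R ^ (251 / 1000 : ℝ) ≤ (4 * X) ^ (251 / 1000 : ℝ) := rpow_le_rpow hR0.le hR4 (by norm_num)
      _ = 4 ^ (251 / 1000 : ℝ) * X ^ (251 / 1000 : ℝ) := mul_rpow (by norm_num) hX0.le
      _ ≤ X ^ (13 / 49 - 251 / 1000 : ℝ) * X ^ (251 / 1000 : ℝ) := by
          refine mul_le_mul_of_nonneg_right (h5.trans h3) (by positivity)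
      _ = X ^ (13 / 49 : ℝ) := by
          rw [← rpow_add hX0]
          norm_num
  · refine hKu.trans ?_
    have h5 : (4 : ℝ) ^ (332 / 1000 : ℝ) ≤ 4 := by
      calc (4 : ℝ) ^ (332 / 1000 : ℝ) ≤ 4 ^ (1 : ℝ) := rpow_le_rpow_of_exponent_le (by norm_num) (by norm_num)
        _ = 4 := rpow_one _
    have h6 : (X / 4) ^ (332 / 1000 : ℝ) ≤ R ^ (332 / 1000 : ℝ) := rpow_le_rpow (by positivity) hR (by norm_num)
    refine le_trans ?_ h6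
    rw [div_rpow hX0.le (by norm_num), le_div_iff₀ (by positivity)]
    calc X ^ (16 / 49 : ℝ) * 4 ^ (332 / 1000 : ℝ) ≤ X ^ (16 / 49 : ℝ) * X ^ (332 / 1000 - 16 / 49 : ℝ) := by
          refine mul_le_mul_of_nonneg_left (h5.trans h4) (by positivity)
      _ = X ^ (332 / 1000 : ℝ) := by
          rw [← rpow_add hX0]
          norm_num

/-- **the octant bound for the exponent 61/98** -/
theorem octB61 (h4 : WP4) (htd : TD2) : OctB (61 / 98) (1 / 1000) := by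
  intro ε hε
  obtain ⟨e, he, heε, he1⟩ : ∃ e : ℝ, 0 < e ∧ e ≤ ε ∧ e ≤ 1 / 1000 :=
    ⟨min ε (1 / 1000), lt_min hε (by norm_num), min_le_left _ _, min_le_right _ _⟩
  obtain ⟨C1, hC1, h6⟩ := htd
  obtain ⟨C2, hC2, h0⟩ := Pool.Agent.Helper64.GS.oct_bound0 he he1
  obtain ⟨B1, hB1, hcond1⟩ := phd_cond 1 (Or.inl rfl)
  obtain ⟨B2, hB2, hcond2⟩ := phd_cond 2 (Or.inr rfl)
  obtain ⟨C3, hC3, h41⟩ := h4 e (1 / 125) B1 he he1 (by norm_num) hB1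
  obtain ⟨C4, hC4, h42⟩ := h4 e (1 / 125) B2 he he1 (by norm_num) hB2
  obtain ⟨X1, hX1, hlarge⟩ := large61
  refine ⟨25 * X1 ^ 2 + 25 + C1 * (4 * (1 + 1 / ε)) + C2 + 32 * (C3 + C4), by positivity, ?_⟩
  intro R₀ R K hR₀ hR hR4 hK hKu i hi c
  have hX0 : 0 < R₀ := by linarith
  have hR0 : 0 < R := by linarith
  have hK1 : (1 : ℝ) ≤ K := by exact_mod_cast hK
  have hK0 : (0 : ℝ) < K := by linarith
  have hKX : (K : ℝ) ≤ R₀ := hKu.trans (by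
    calc R₀ ^ (1 - 61 / 98 + 1 / 1000 : ℝ) ≤ R₀ ^ (1 : ℝ) := rpow_le_rpow_of_exponent_le hR₀ (by norm_num)
      _ = R₀ := rpow_one _)
  set W : ℝ := R₀ ^ (61 / 98 - 1 / 2 + ε) * (K : ℝ) ^ (3 / 2 : ℝ) with hW
  have hW0 : 0 < W := by positivity
  have hW1 : 1 ≤ W := by
    rw [hW]
    have a1 : 1 ≤ R₀ ^ (61 / 98 - 1 / 2 + ε) := one_le_rpow hR₀ (by linarith)
    have a2 : 1 ≤ (K : ℝ) ^ (3 / 2 : ℝ) := one_le_rpow hK1 (by norm_num)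
    nlinarith
  have hgoal : ‖bs (oct K) K i R c‖ ≤ (25 * X1 ^ 2 + 25 + C1 * (4 * (1 + 1 / ε)) + C2 + 32 * (C3 + C4)) * W → ‖bs (oct K) K i R c‖ ≤
      (25 * X1 ^ 2 + 25 + C1 * (4 * (1 + 1 / ε)) + C2 + 32 * (C3 + C4)) * R₀ ^ (61 / 98 - 1 / 2 + ε) * (K : ℝ) ^ (3 / 2 : ℝ) := by
    intro h
    rw [mul_assoc]
    exact h
  apply hgoal
  have hp0 : 0 ≤ 25 * X1 ^ 2 * W := by positivity
  have hp1 : 0 ≤ 25 * W := by positivity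
  have hp2 : 0 ≤ C1 * (4 * (1 + 1 / ε)) * W := by positivity
  have hp3 : 0 ≤ C2 * W := by positivity
  have hp4 : 0 ≤ 32 * (C3 + C4) * W := by positivity
  have hsplit : (25 * X1 ^ 2 + 25 + C1 * (4 * (1 + 1 / ε)) + C2 + 32 * (C3 + C4)) * W =
      25 * X1 ^ 2 * W + 25 * W + C1 * (4 * (1 + 1 / ε)) * W + C2 * W + 32 * (C3 + C4) * W := by ring
  rw [hsplit]
  rcases le_total R₀ X1 with hs | hs
  · have h1 := oct_triv (i := i) (R := R) hK c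
    have h3 : (K : ℝ) ^ 2 ≤ X1 ^ 2 := pow_le_pow_left₀ hK0.le (hKX.trans hs) 2
    have h5 : 25 * X1 ^ 2 * 1 ≤ 25 * X1 ^ 2 * W := mul_le_mul_of_nonneg_left hW1 (by positivity)
    linarith
  obtain ⟨l1, l2, l3⟩ := hlarge R₀ R K hs hR hR4 hK1
  rcases le_total (K : ℝ) (R₀ ^ (12 / 49 : ℝ)) with hA | hA
  · have h1 := (oct_triv (i := i) (R := R) hK c).trans (rA61 hε hR₀ hK1 hA)
    linarith
  rcases le_total (K : ℝ) (R₀ ^ (13 / 49 : ℝ)) with hB | hB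
  · obtain ⟨a1, a2⟩ := l1 hA hB
    have h1 := h6 K R hK (by linarith) a1 a2 i (by rcases hi with rfl | rfl <;> norm_num) c
    have h2 : (R / (K : ℝ) ^ 5) ^ (1 / 32 : ℝ) ≤ 4 * (R₀ / (K : ℝ) ^ 5) ^ (1 / 32 : ℝ) := by
      have e1 : (4 : ℝ) ^ (1 / 32 : ℝ) ≤ 4 := by
        calc (4 : ℝ) ^ (1 / 32 : ℝ) ≤ 4 ^ (1 : ℝ) := rpow_le_rpow_of_exponent_le (by norm_num) (by norm_num)
          _ = 4 := rpow_one _
      calc (R / (K : ℝ) ^ 5) ^ (1 / 32 : ℝ) ≤ (4 * (R₀ / (K : ℝ) ^ 5)) ^ (1 / 32 : ℝ) := by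
            refine rpow_le_rpow (by positivity) ?_ (by norm_num)
            rw [← mul_div_assoc]
            gcongr
        _ = 4 ^ (1 / 32 : ℝ) * (R₀ / (K : ℝ) ^ 5) ^ (1 / 32 : ℝ) := mul_rpow (by norm_num) (by positivity)
        _ ≤ _ := mul_le_mul_of_nonneg_right e1 (by positivity)
    have h3 := rB61 hR₀ hK1 hB
    have h5 := log61 hε hR₀ hK1 hKX
    have hlog : 0 ≤ log (K : ℝ) := log_nonneg hK1
    have h7 : R₀ ^ (61 / 98 - 1 / 2 + ε) = R₀ ^ (61 / 98 - 1 / 2 : ℝ) * R₀ ^ ε := rpow_add hX0 _ _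
    have h8 : (K : ℝ) ^ 2 * (1 + log K) * (R / (K : ℝ) ^ 5) ^ (1 / 32 : ℝ) ≤ 4 * (1 + 1 / ε) * W := by
      calc (K : ℝ) ^ 2 * (1 + log K) * (R / (K : ℝ) ^ 5) ^ (1 / 32 : ℝ) ≤
            (K : ℝ) ^ 2 * (1 + log K) * (4 * (R₀ / (K : ℝ) ^ 5) ^ (1 / 32 : ℝ)) := by gcongr
        _ = 4 * (1 + log K) * ((K : ℝ) ^ 2 * (R₀ / (K : ℝ) ^ 5) ^ (1 / 32 : ℝ)) := by ring
        _ ≤ 4 * ((1 + 1 / ε) * R₀ ^ ε) * (R₀ ^ (61 / 98 - 1 / 2 : ℝ) * (K : ℝ) ^ (3 / 2 : ℝ)) := by gcongr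
        _ = 4 * (1 + 1 / ε) * W := by
          rw [hW, h7]
          ring
    have h9 : C1 * ((K : ℝ) ^ 2 * (1 + log K) * (R / (K : ℝ) ^ 5) ^ (1 / 32 : ℝ)) ≤ C1 * (4 * (1 + 1 / ε) * W) :=
      mul_le_mul_of_nonneg_left h8 hC1.le
    have h10 : C1 * (4 * (1 + 1 / ε) * W) = C1 * (4 * (1 + 1 / ε)) * W := by ring
    rw [h10] at h9
    linarith
  rcases le_total (K : ℝ) (R₀ ^ (16 / 49 : ℝ)) with hC | hC
  · have hR1 : 1 ≤ R := by linarith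
    have hl : R ^ (1 / 4 + e) ≤ (K : ℝ) := (rpow_le_rpow_of_exponent_le hR1 (by linarith)).trans (l2 hB)
    have hu : (K : ℝ) ≤ R ^ (1 / 3 - e) := (l3 hC).trans (rpow_le_rpow_of_exponent_le hR1 (by linarith))
    have h12 : ‖bs (oct K) K i R c‖ ≤ (C3 + C4) * R ^ e * ((K : ℝ) ^ (4 / 3 : ℝ) * R ^ (1 / 6 : ℝ) + (K : ℝ) ^ (5 / 3 : ℝ) * (R * K) ^ (1 / 20 : ℝ)) := by
      rw [bs_osum hK]
      rcases hi with rfl | rfl
      · have h1 := h41 phd (Wd 1) hcond1 R R K hR1 le_rfl (by linarith) hl hu 1 (Or.inl rfl) c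
        refine h1.trans ?_
        gcongr
        linarith
      · have h1 := h42 phd (Wd 2) hcond2 R R K hR1 le_rfl (by linarith) hl hu 2 (Or.inr rfl) c
        refine h1.trans ?_
        gcongr
        linarith
    have g1 : R ^ e ≤ 4 * R₀ ^ e := by
      calc R ^ e ≤ (4 * R₀) ^ e := rpow_le_rpow hR0.le hR4 he.le
        _ = 4 ^ e * R₀ ^ e := mul_rpow (by norm_num) hX0.le
        _ ≤ 4 ^ (1 : ℝ) * R₀ ^ e := by
          refine mul_le_mul_of_nonneg_right ?_ (by positivity)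
          exact rpow_le_rpow_of_exponent_le (by norm_num) (by linarith)
        _ = 4 * R₀ ^ e := by rw [rpow_one]
    have g2 : R ^ (1 / 6 : ℝ) ≤ 4 * R₀ ^ (1 / 6 : ℝ) := by
      calc R ^ (1 / 6 : ℝ) ≤ (4 * R₀) ^ (1 / 6 : ℝ) := rpow_le_rpow hR0.le hR4 (by norm_num)
        _ = 4 ^ (1 / 6 : ℝ) * R₀ ^ (1 / 6 : ℝ) := mul_rpow (by norm_num) hX0.le
        _ ≤ 4 ^ (1 : ℝ) * R₀ ^ (1 / 6 : ℝ) := by
          refine mul_le_mul_of_nonneg_right ?_ (by positivity)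
          exact rpow_le_rpow_of_exponent_le (by norm_num) (by norm_num)
        _ = 4 * R₀ ^ (1 / 6 : ℝ) := by rw [rpow_one]
    have g3 : (R * K) ^ (1 / 20 : ℝ) ≤ 4 * (R₀ * K) ^ (1 / 20 : ℝ) := by
      calc (R * K) ^ (1 / 20 : ℝ) ≤ (4 * (R₀ * K)) ^ (1 / 20 : ℝ) := by
            refine rpow_le_rpow (by positivity) ?_ (by norm_num)
            rw [← mul_assoc]
            gcongr
        _ = 4 ^ (1 / 20 : ℝ) * (R₀ * K) ^ (1 / 20 : ℝ) := mul_rpow (by norm_num) (by positivity)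
        _ ≤ 4 ^ (1 : ℝ) * (R₀ * K) ^ (1 / 20 : ℝ) := by
          refine mul_le_mul_of_nonneg_right ?_ (by positivity)
          exact rpow_le_rpow_of_exponent_le (by norm_num) (by norm_num)
        _ = 4 * (R₀ * K) ^ (1 / 20 : ℝ) := by rw [rpow_one]
    have r1 := rC61 hε hR₀ hK1 hB
    have r2 := rD61 hε hR₀ hK1 hC
    rw [← hW] at r1 r2
    have g4 : R₀ ^ e ≤ R₀ ^ ε := rpow_le_rpow_of_exponent_le hR₀ heε
    refine h12.trans ?_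
    have h13 : (C3 + C4) * R ^ e * ((K : ℝ) ^ (4 / 3 : ℝ) * R ^ (1 / 6 : ℝ) + (K : ℝ) ^ (5 / 3 : ℝ) * (R * K) ^ (1 / 20 : ℝ)) ≤
        32 * (C3 + C4) * W := by
      calc (C3 + C4) * R ^ e * ((K : ℝ) ^ (4 / 3 : ℝ) * R ^ (1 / 6 : ℝ) + (K : ℝ) ^ (5 / 3 : ℝ) * (R * K) ^ (1 / 20 : ℝ)) ≤
            (C3 + C4) * (4 * R₀ ^ ε) * ((K : ℝ) ^ (4 / 3 : ℝ) * (4 * R₀ ^ (1 / 6 : ℝ)) + (K : ℝ) ^ (5 / 3 : ℝ) * (4 * (R₀ * K) ^ (1 / 20 : ℝ))) := by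
            gcongr
            exact g1.trans (by linarith)
        _ = 16 * (C3 + C4) * (R₀ ^ ε * ((K : ℝ) ^ (4 / 3 : ℝ) * R₀ ^ (1 / 6 : ℝ)) + R₀ ^ ε * ((K : ℝ) ^ (5 / 3 : ℝ) * (R₀ * K) ^ (1 / 20 : ℝ))) := by ring
        _ ≤ 16 * (C3 + C4) * (W + W) := by gcongr
        _ = 32 * (C3 + C4) * W := by ring
    linarith
  · have hl : R₀ ^ (1 / 4 + e) ≤ (K : ℝ) :=
      (rpow_le_rpow_of_exponent_le hR₀ (by linarith)).trans hC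
    have hu : (K : ℝ) ≤ R₀ ^ (7 / 18 - e) :=
      hKu.trans (rpow_le_rpow_of_exponent_le hR₀ (by linarith))
    have h1 := h0 R₀ R K hR₀ hR hR4 hl hu i hi c
    rw [rpow_zero, mul_one] at h1
    have h2 := h1.trans (rE61 hC2 heε hR₀ hK1 hC)
    rw [← hW] at h2
    linarith

/-- **The circle problem with the exponent `61/98 + ε`**, for all radii and all centres, from `WP4` and `TD2`. -/
theorem main61 (h4 : WP4) (htd : TD2) {ε : ℝ} (hε : 0 < ε) : ∃ C : ℝ, ∀ R : ℝ, 1 ≤ R → ∀ c : ℝ × ℝ,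
    |dcnt c R - π * R ^ 2| ≤ C * R ^ (61 / 98 + ε) :=
  asm (by norm_num) (by norm_num) (by norm_num) (octB61 h4 htd) hε

end Pool.Agent.Helper22.D3
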