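import Pool.Agent.Helper22.D3.Main
import Pool.Agent.Helper53.OW.Oct2

/-!
# D3 (MP_fb29e9_nt): exponent 38/61 for all ovals with support function of class `C⁷`, from the class sums (`WP4`)

Ranges (`K = X^κ`): `κ ≤ 15/61` trivial, `15/61 ≤ κ ≤ 16/61` the sixth derivative test `OW.oct2`, `16/61 ≤ κ ≤ 19/61` `WP4` (twelfth moment), `19/61 ≤ κ ≤ 23/61` the sixth moment `oct_gen`.
-/

open MeasureTheory Real Set Filter Topology

set_option autoImplicit false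

namespace Pool.Agent.Helper22.D3

open Pool.Agent.Helper22.AE
open Pool.Agent.Helper22.AC (cntc ga)
open Pool.Agent.Helper92.GC (dt sqa oct)
open Pool.Agent.Helper22.OV (Cond osum)
open Pool.Agent.Helper76.OV (Cw Cn os)
open Pool.Agent.Helper92.OV6 (os_triv)
open Pool.Agent.Helper53.OW (C6m oct2)

/-- the class sums with twelfth moments -/
def WP4 : Prop := ∀ e c₁ B : ℝ, 0 < e → e ≤ 1 / 1000 → 0 < c₁ → 1 ≤ B → ∃ C : ℝ, 0 < C ∧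
    ∀ (φ : ℝ → ℝ) (W : ℝ → ℂ), Cond c₁ B φ W → ∀ (X R : ℝ) (K : ℕ), 1 ≤ X → X ≤ R → R ≤ 2 * X →
      X ^ (1 / 4 + e) ≤ K → (K : ℝ) ≤ X ^ (1 / 3 - e) → ∀ i : ℕ, (i = 1 ∨ i = 2) → ∀ c : ℝ × ℝ,
        ‖osum K i W φ R c‖ ≤ C * X ^ e * ((K : ℝ) ^ (4 / 3 : ℝ) * X ^ (1 / 6 : ℝ) + (K : ℝ) ^ (5 / 3 : ℝ) * (X * K) ^ (1 / 20 : ℝ))

/-- range (A) -/
private lemma rA38 {e X K : ℝ} (he : 0 < e) (hX : 1 ≤ X) (hK1 : 1 ≤ K) (hK : K ≤ X ^ (15 / 61 : ℝ)) :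
    K ^ 2 ≤ X ^ (38 / 61 - 1 / 2 + e) * K ^ (3 / 2 : ℝ) := by
  have hX0 : 0 < X := by linarith
  have hK0 : 0 < K := by linarith
  obtain ⟨x, rfl⟩ : ∃ x, X = exp x := ⟨log X, (exp_log hX0).symm⟩
  obtain ⟨k, rfl⟩ : ∃ k, K = exp k := ⟨log K, (exp_log hK0).symm⟩
  have hx : 0 ≤ x := one_le_exp_iff.1 hX
  have hk : 0 ≤ k := one_le_exp_iff.1 hK1
  rw [← exp_mul, exp_le_exp] at hK
  have hp : 0 ≤ e * x := mul_nonneg he.le hx
  have e1 : exp k ^ 2 = exp (2 * k) := by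
    rw [← exp_nat_mul]
    norm_num
  rw [e1, ← exp_mul, ← exp_mul, ← exp_add]
  refine exp_le_exp.2 ?_
  nlinarith

/-- range (B) -/
private lemma rB38 {e X R K : ℝ} (he : 0 < e) (hX : 1 ≤ X) (hR : X ≤ R) (hR2 : R ≤ 2 * X) (hK1 : 1 ≤ K) (hK : K ≤ X ^ (16 / 61 : ℝ)) :
    K ^ 2 * (1 + log K) * (R / K ^ 5) ^ (1 / 38 : ℝ) ≤ 2 * (1 + 1 / e) * (X ^ (38 / 61 - 1 / 2 + e) * K ^ (3 / 2 : ℝ)) := by
  have hX0 : 0 < X := by linarith
  have hK0 : 0 < K := by linarith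
  have h1 : (R / K ^ 5) ^ (1 / 38 : ℝ) ≤ 2 * (X / K ^ 5) ^ (1 / 38 : ℝ) := by
    calc (R / K ^ 5) ^ (1 / 38 : ℝ) ≤ (2 * (X / K ^ 5)) ^ (1 / 38 : ℝ) := by
          have hR0 : 0 < R := by linarith
          refine rpow_le_rpow (by positivity) ?_ (by norm_num)
          rw [← mul_div_assoc]
          gcongr
      _ = 2 ^ (1 / 38 : ℝ) * (X / K ^ 5) ^ (1 / 38 : ℝ) := mul_rpow (by norm_num) (by positivity)
      _ ≤ 2 * (X / K ^ 5) ^ (1 / 38 : ℝ) := by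
          refine mul_le_mul_of_nonneg_right ?_ (by positivity)
          calc (2 : ℝ) ^ (1 / 38 : ℝ) ≤ 2 ^ (1 : ℝ) := rpow_le_rpow_of_exponent_le (by norm_num) (by norm_num)
            _ = 2 := rpow_one _
  have hR0 : 0 < R := by linarith
  have hKX : K ≤ X := hK.trans ((rpow_le_rpow_of_exponent_le hX (by norm_num : (16 / 61 : ℝ) ≤ 1)).trans (rpow_one X).le)
  have h2 : 1 + log K ≤ (1 + 1 / e) * X ^ e := by
    have h3 : log K ≤ X ^ e / e := (log_le_log hK0 hKX).trans (log_le_rpow_div hX0.le he)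
    have h4 : 1 ≤ X ^ e := one_le_rpow hX he.le
    have h5 : X ^ e / e = 1 / e * X ^ e := by ring
    linarith
  have hl : 0 ≤ log K := log_nonneg hK1
  have h3 : K ^ 2 * X ^ e * (X / K ^ 5) ^ (1 / 38 : ℝ) ≤ X ^ (38 / 61 - 1 / 2 + e) * K ^ (3 / 2 : ℝ) := by
    obtain ⟨x, rfl⟩ : ∃ x, X = exp x := ⟨log X, (exp_log hX0).symm⟩
    obtain ⟨k, rfl⟩ : ∃ k, K = exp k := ⟨log K, (exp_log hK0).symm⟩
    rw [← exp_mul, exp_le_exp] at hK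
    have e1 : exp k ^ 2 = exp (2 * k) := by
      rw [← exp_nat_mul]
      norm_num
    have e2 : exp k ^ 5 = exp (5 * k) := by
      rw [← exp_nat_mul]
      norm_num
    rw [e1, e2, ← exp_sub, ← exp_mul, ← exp_mul, ← exp_mul, ← exp_mul, ← exp_add, ← exp_add, ← exp_add]
    refine exp_le_exp.2 ?_
    nlinarith
  calc K ^ 2 * (1 + log K) * (R / K ^ 5) ^ (1 / 38 : ℝ) ≤
        K ^ 2 * ((1 + 1 / e) * X ^ e) * (2 * (X / K ^ 5) ^ (1 / 38 : ℝ)) := by gcongr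
    _ = 2 * (1 + 1 / e) * (K ^ 2 * X ^ e * (X / K ^ 5) ^ (1 / 38 : ℝ)) := by ring
    _ ≤ _ := mul_le_mul_of_nonneg_left h3 (by positivity)

/-- range (B): the powers -/
private lemma rB38p {X R K : ℝ} (hX : 32 ≤ X) (hR : X ≤ R) (hR2 : R ≤ 2 * X) (hK1 : 1 ≤ K) (hA : X ^ (15 / 61 : ℝ) ≤ K)
    (hK : K ≤ X ^ (16 / 61 : ℝ)) : K ^ 3 ≤ R ∧ R ≤ K ^ 5 := by
  have hX0 : 0 < X := by linarith
  have hX1 : 1 ≤ X := by linarith
  have hK0 : 0 < K := by linarith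
  constructor
  · calc K ^ 3 ≤ (X ^ (16 / 61 : ℝ)) ^ 3 := pow_le_pow_left₀ hK0.le hK 3
      _ = X ^ (48 / 61 : ℝ) := by
          rw [← rpow_natCast, ← rpow_mul hX0.le]
          norm_num
      _ ≤ X ^ (1 : ℝ) := rpow_le_rpow_of_exponent_le hX1 (by norm_num)
      _ = X := rpow_one X
      _ ≤ R := hR
  · have h1 : (2 : ℝ) ≤ X ^ (14 / 61 : ℝ) := by
      calc (2 : ℝ) = 2 ^ (1 : ℝ) := (rpow_one 2).symm
        _ ≤ 2 ^ (70 / 61 : ℝ) := rpow_le_rpow_of_exponent_le (by norm_num) (by norm_num)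
        _ = (32 : ℝ) ^ (14 / 61 : ℝ) := by
            rw [show (32 : ℝ) = 2 ^ (5 : ℝ) by norm_num, ← rpow_mul (by norm_num)]
            norm_num
        _ ≤ X ^ (14 / 61 : ℝ) := rpow_le_rpow (by norm_num) hX (by norm_num)
    calc R ≤ 2 * X := hR2
      _ ≤ X ^ (14 / 61 : ℝ) * X := mul_le_mul_of_nonneg_right h1 hX0.le
      _ = X ^ (75 / 61 : ℝ) := by
          rw [← rpow_add_one hX0.ne']
          norm_num
      _ = (X ^ (15 / 61 : ℝ)) ^ 5 := by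
          rw [← rpow_natCast, ← rpow_mul hX0.le]
          norm_num
      _ ≤ K ^ 5 := pow_le_pow_left₀ (by positivity) hA 5

/-- range (C1), the first term of `WP4` -/
private lemma rC38 {e X K : ℝ} (hX : 1 ≤ X) (hK1 : 1 ≤ K) (hK : X ^ (16 / 61 : ℝ) ≤ K) :
    X ^ e * (K ^ (4 / 3 : ℝ) * X ^ (1 / 6 : ℝ)) ≤ X ^ (38 / 61 - 1 / 2 + e) * K ^ (3 / 2 : ℝ) := by
  have hX0 : 0 < X := by linarith
  have hK0 : 0 < K := by linarith
  obtain ⟨x, rfl⟩ : ∃ x, X = exp x := ⟨log X, (exp_log hX0).symm⟩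
  obtain ⟨k, rfl⟩ : ∃ k, K = exp k := ⟨log K, (exp_log hK0).symm⟩
  have hx : 0 ≤ x := one_le_exp_iff.1 hX
  rw [← exp_mul, exp_le_exp] at hK
  rw [← exp_mul, ← exp_mul, ← exp_mul, ← exp_mul, ← exp_mul, ← exp_add, ← exp_add, ← exp_add]
  refine exp_le_exp.2 ?_
  nlinarith

/-- range (C2), the second term of `WP4` -/
private lemma rD38 {e X K : ℝ} (hX : 1 ≤ X) (hK1 : 1 ≤ K) (hK : K ≤ X ^ (19 / 61 : ℝ)) :
    X ^ e * (K ^ (5 / 3 : ℝ) * (X * K) ^ (1 / 20 : ℝ)) ≤ X ^ (38 / 61 - 1 / 2 + e) * K ^ (3 / 2 : ℝ) := by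
  have hX0 : 0 < X := by linarith
  have hK0 : 0 < K := by linarith
  obtain ⟨x, rfl⟩ : ∃ x, X = exp x := ⟨log X, (exp_log hX0).symm⟩
  obtain ⟨k, rfl⟩ : ∃ k, K = exp k := ⟨log K, (exp_log hK0).symm⟩
  have hx : 0 ≤ x := one_le_exp_iff.1 hX
  rw [← exp_mul, exp_le_exp] at hK
  rw [← exp_add]
  rw [← exp_mul, ← exp_mul, ← exp_mul, ← exp_mul, ← exp_mul, ← exp_add, ← exp_add, ← exp_add]
  refine exp_le_exp.2 ?_
  nlinarith

/-- range (E), the sixth moment -/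
private lemma rE38 {e C X K : ℝ} (hC : 0 < C) (hX : 1 ≤ X) (hK1 : 1 ≤ K) (hK : X ^ (19 / 61 : ℝ) ≤ K) :
    C * X ^ e * K ^ (4 / 3 : ℝ) * (X * K) ^ (2 / 15 : ℝ) ≤ C * (X ^ (38 / 61 - 1 / 2 + e) * K ^ (3 / 2 : ℝ)) := by
  have hX0 : 0 < X := by linarith
  have hK0 : 0 < K := by linarith
  obtain ⟨x, rfl⟩ : ∃ x, X = exp x := ⟨log X, (exp_log hX0).symm⟩
  obtain ⟨k, rfl⟩ : ∃ k, K = exp k := ⟨log K, (exp_log hK0).symm⟩
  have hx : 0 ≤ x := one_le_exp_iff.1 hX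
  rw [← exp_mul, exp_le_exp] at hK
  rw [← exp_add]
  simp only [← exp_mul]
  rw [mul_assoc, mul_assoc, ← exp_add, ← exp_add, ← exp_add]
  refine mul_le_mul_of_nonneg_left (exp_le_exp.2 ?_) hC.le
  nlinarith

/-- the octant sums, all ranges -/
theorem octAll38 (h4 : WP4) : OctAll (38 / 61) := by
  intro e c₁ B ω he he1 hc hB hω
  obtain ⟨C1, hC1, h4'⟩ := h4 e c₁ B he he1 hc hB
  obtain ⟨C2, hC2, h5⟩ := oct2 (c₁ := c₁) (B := B) (ω := ω) hc hB hω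
  obtain ⟨C3, hC3, h6⟩ := oct_gen (ε := e) (c₁ := c₁) (B := B) he he1 hc hB
  refine ⟨25 * B + 2 * C1 + C2 * (2 * (1 + 1 / e)) + C3, 32, by positivity, by norm_num, ?_⟩
  intro φ W hφ hφ6 X R K hX hR hR2 hK hKu i hi c
  have hXX : 1 ≤ X := by linarith
  have hX0 : 0 < X := by linarith
  have hK1 : (1 : ℝ) ≤ K := by exact_mod_cast hK
  have hK0 : (0 : ℝ) < K := by linarith
  have hW : Cw B W := ⟨hφ.wb, hφ.wl⟩
  have hn : Cn c₁ B φ := ⟨hφ.smooth, hφ.lo, hφ.d2, hφ.d3, hφ.d4⟩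
  have heq : osum K i W φ R c = os (oct K) K i W φ R c := rfl
  set T : ℝ := X ^ (38 / 61 - 1 / 2 + e) * (K : ℝ) ^ (3 / 2 : ℝ) with hT
  have hT0 : 0 < T := by positivity
  have hp1 : 0 ≤ 25 * B * T := by positivity
  have hp2 : 0 ≤ 2 * C1 * T := by positivity
  have hp3 : 0 ≤ C2 * (2 * (1 + 1 / e)) * T := by positivity
  have hp4 : 0 ≤ C3 * T := by positivity
  have hsum : (25 * B + 2 * C1 + C2 * (2 * (1 + 1 / e)) + C3) * T = 25 * B * T + 2 * C1 * T + C2 * (2 * (1 + 1 / e)) * T + C3 * T := by ring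
  rw [hsum]
  rcases le_total (K : ℝ) (X ^ (15 / 61 : ℝ)) with hA | hA
  · have h1 := rA38 he hXX hK1 hA
    have h2 : ‖osum K i W φ R c‖ ≤ 25 * B * (K : ℝ) ^ 2 := by
      rw [heq]
      exact os_triv (by linarith) hφ.wb hK c
    have h3 : 25 * B * (K : ℝ) ^ 2 ≤ 25 * B * T := mul_le_mul_of_nonneg_left h1 (by positivity)
    linarith
  rcases le_total (K : ℝ) (X ^ (16 / 61 : ℝ)) with hB1 | hB1
  · obtain ⟨q1, q2⟩ := rB38p hX hR hR2 hK1 hA hB1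
    have h1 := h5 φ hφ6 W hW R K hK q1 q2 i (by omega) c
    have h2 := mul_le_mul_of_nonneg_left (rB38 he hXX hR hR2 hK1 hB1) hC2.le
    rw [← hT] at h2
    rw [heq]
    have h3 : C2 * (2 * (1 + 1 / e) * T) = C2 * (2 * (1 + 1 / e)) * T := by ring
    linarith
  rcases le_total (K : ℝ) (X ^ (19 / 61 : ℝ)) with hC' | hC'
  · have hl : X ^ (1 / 4 + e) ≤ (K : ℝ) := (rpow_le_rpow_of_exponent_le hXX (by linarith)).trans hB1
    have hu : (K : ℝ) ≤ X ^ (1 / 3 - e) := hC'.trans (rpow_le_rpow_of_exponent_le hXX (by linarith))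
    have h1 := h4' φ W hφ X R K hXX hR hR2 hl hu i hi c
    have h2 := rC38 (e := e) hXX hK1 hB1
    have h3 := rD38 (e := e) hXX hK1 hC'
    rw [← hT] at h2 h3
    have h4'' : C1 * X ^ e * ((K : ℝ) ^ (4 / 3 : ℝ) * X ^ (1 / 6 : ℝ) + (K : ℝ) ^ (5 / 3 : ℝ) * (X * K) ^ (1 / 20 : ℝ)) ≤
        2 * C1 * T := by
      calc C1 * X ^ e * ((K : ℝ) ^ (4 / 3 : ℝ) * X ^ (1 / 6 : ℝ) + (K : ℝ) ^ (5 / 3 : ℝ) * (X * K) ^ (1 / 20 : ℝ)) =
            C1 * (X ^ e * ((K : ℝ) ^ (4 / 3 : ℝ) * X ^ (1 / 6 : ℝ)) + X ^ e * ((K : ℝ) ^ (5 / 3 : ℝ) * (X * K) ^ (1 / 20 : ℝ))) := by ring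
        _ ≤ C1 * (T + T) := by gcongr
        _ = 2 * C1 * T := by ring
    linarith
  · have hl : X ^ (1 / 4 + e) ≤ (K : ℝ) := (rpow_le_rpow_of_exponent_le hXX (by linarith)).trans hC'
    have hu : (K : ℝ) ≤ X ^ (380 / 1000 : ℝ) := hKu.trans (rpow_le_rpow_of_exponent_le hXX (by linarith))
    have h1 := h6 φ W hn hW X R K hXX hR hR2 hl hu i hi c
    have h2 := rE38 (e := e) hC3 hXX hK1 hC'
    rw [← hT] at h2
    rw [heq]
    linarith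

/-- every oval, exponent `38/61`, from `WP4` -/
theorem main38 (h4 : WP4) {H : ℝ → ℝ} (hH : IsSupp H) (h7 : ContDiff ℝ 7 H) {ε : ℝ} (hε : 0 < ε) :
    ∃ C : ℝ, ∀ R : ℝ, 1 ≤ R → ∀ c : ℝ × ℝ, |cntc H c R - area H * R ^ 2| ≤ C * R ^ (38 / 61 + ε) :=
  main_gen (by norm_num) (by norm_num) (octAll38 h4) hH h7 hε

end Pool.Agent.Helper22.D3
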