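import Pool.Agent.Helper92.OV6.Oct
import Pool.Agent.Helper53.OW.Cond
import Pool.Agent.Helper22.D3.Oct
import Pool.Agent.Helper76.OV.Fin

/-!
# D3 (MP_fb29e9_nt): from octant sums to all ovals, general exponent `θ`

`OctAll θ`: the octant sums are `O(X^(θ - 1/2 + e) K^(3/2))` for `K ≤ X^(1 - θ + e)`. `main_gen`: then the exponent of every oval with support function of class `C⁷` is `θ + ε`, for
all centres. (As Helper92.OV6.Main.)
-/

open MeasureTheory Real Set Filter Topology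

set_option autoImplicit false

namespace Pool.Agent.Helper22.D3

open Pool.Agent.Helper22.AE
open Pool.Agent.Helper22.AC (cntc ga)
open Pool.Agent.Helper92.GC (dt sqa oct)
open Pool.Agent.Helper22.OV (Cond osum oph owt gam bsg ov_cond gen_blocks ft_gen rho_bd_o3 rho_per_o3 ga_per_o3 cntc_bdd sqa_oct_gen)
open Pool.Agent.Helper76.OV (Cw os)
open Pool.Agent.Helper53.OW (C6m cond6m)

/-- the octant bound with exponent `θ` -/
def OctAll (θ : ℝ) : Prop := ∀ (e c₁ B : ℝ) (ω : ℝ → ℝ), 0 < e → e ≤ 1 / 1000 → 0 < c₁ → 1 ≤ B → (∀ ε, 0 < ε → 0 < ω ε) → ∃ C X₁ : ℝ, 0 < C ∧ 1 ≤ X₁ ∧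
    ∀ (φ : ℝ → ℝ) (W : ℝ → ℂ), Cond c₁ B φ W → C6m c₁ B ω φ → ∀ (X R : ℝ) (K : ℕ), X₁ ≤ X → X ≤ R → R ≤ 2 * X → 1 ≤ K →
      (K : ℝ) ≤ X ^ (1 - θ + e) → ∀ i : ℕ, (i = 1 ∨ i = 2) → ∀ c : ℝ × ℝ,
        ‖osum K i W φ R c‖ ≤ C * (X ^ (θ - 1 / 2 + e) * (K : ℝ) ^ (3 / 2 : ℝ))

private lemma blkD {θ ε C M X K : ℝ} (ht0 : 1 / 2 ≤ θ) (hε : 0 < ε) (hX : 1 ≤ X) (hK1 : 1 ≤ K) (hC : 0 < C) (hM : 0 ≤ M) :
    X ^ (1 / 2 : ℝ) * K ^ (-(3 / 2) : ℝ) * (8 * (C * (X ^ (θ - 1 / 2 + ε / 8) * K ^ (3 / 2 : ℝ))) + 16 * K * M) ≤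
      (8 * C + 16 * M) * X ^ (θ + ε / 2) := by
  have hX0 : 0 < X := by linarith
  have hK0 : 0 < K := by linarith
  obtain ⟨x, rfl⟩ : ∃ x, X = exp x := ⟨log X, (exp_log hX0).symm⟩
  obtain ⟨k, rfl⟩ : ∃ k, K = exp k := ⟨log K, (exp_log hK0).symm⟩
  have hx : 0 ≤ x := one_le_exp_iff.1 hX
  have hk : 0 ≤ k := one_le_exp_iff.1 hK1
  have hp : 0 ≤ ε * x := mul_nonneg hε.le hx
  simp only [← exp_mul]
  have e1 : exp (x * (1 / 2)) * exp (k * -(3 / 2)) * (8 * (C * (exp (x * (θ - 1 / 2 + ε / 8)) * exp (k * (3 / 2)))) +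
      16 * exp k * M) =
      8 * C * exp (x * (1 / 2) + k * -(3 / 2) + x * (θ - 1 / 2 + ε / 8) + k * (3 / 2)) +
        16 * M * exp (x * (1 / 2) + k * -(3 / 2) + k) := by
    simp only [exp_add]
    ring
  rw [e1]
  have h3 : exp (x * (1 / 2) + k * -(3 / 2) + x * (θ - 1 / 2 + ε / 8) + k * (3 / 2)) ≤
      exp (x * (θ + ε / 2)) := by
    rw [exp_le_exp]
    nlinarith
  have h5 : exp (x * (1 / 2) + k * -(3 / 2) + k) ≤ exp (x * (θ + ε / 2)) := by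
    rw [exp_le_exp]
    nlinarith
  have h6 := mul_le_mul_of_nonneg_left h3 (show 0 ≤ 8 * C by positivity)
  have h7 := mul_le_mul_of_nonneg_left h5 (show 0 ≤ 16 * M by positivity)
  linarith

private theorem mainD {θ : ℝ} (ht0 : 1 / 2 ≤ θ) (ht1 : θ < 1) (hall : OctAll θ) {H : ℝ → ℝ} (hH : IsSupp H)
    (h7 : ContDiff ℝ 7 H) {ε : ℝ} (hε : 0 < ε) (hε1 : ε ≤ 1 / 1000) : ∃ C : ℝ, ∀ R : ℝ, 1 ≤ R →
    ∀ c : ℝ × ℝ, |cntc H c R - area H * R ^ 2| ≤ C * R ^ (θ + ε) := by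
  obtain ⟨α₀, η₀, c₁, B₀, hα₀, hα₁, hη₀, hc₁, hB₀, hcond⟩ := ov_cond hH (h7.of_le (by norm_num))
  obtain ⟨B6, ω, hB6, hω, hcond6⟩ := cond6m h7 hc₁
  set Bm : ℝ := max B₀ B6 with hBm
  have hBm1 : 1 ≤ Bm := hB₀.trans (le_max_left _ _)
  obtain ⟨C1, R1', hR1', hblocks⟩ := gen_blocks hH (τ := (1 - θ)) (e2 := ε / 8) (by linarith) (by linarith)
    (by linarith)
  obtain ⟨C2, hC2, hft⟩ := ft_gen hH hα₀ hα₁
  obtain ⟨C3, X1, hC3, hX1, hoct⟩ := hall (ε / 8) c₁ Bm ω (by linarith) (by linarith) hc₁ hBm1 hω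
  obtain ⟨Mr, hMr1, hMr⟩ := rho_bd_o3 hH
  set η₁ : ℝ := min η₀ 1 with hη₁d
  have hη₁ : 0 < η₁ := lt_min hη₀ one_pos
  set R1 : ℝ := max (max R1' (1 / η₁)) X1 with hR1d
  have hR1 : 0 < R1 := lt_max_of_lt_left (lt_max_of_lt_left hR1')
  obtain ⟨C4, hbdd⟩ := cntc_bdd hH R1
  refine ⟨|C1| + (8 / ε + 1) * (C2 * (8 * C3 + 16 * Mr + 1)) + |C4|, ?_⟩
  intro X hX c
  have hMr0 : 0 ≤ Mr := by linarith
  have hX0 : 0 < X := by linarith
  have hbig : 1 ≤ X ^ (θ + ε) := one_le_rpow hX (by linarith)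
  have hc1 : 0 ≤ |C1| := abs_nonneg _
  have hc4 : 0 ≤ |C4| := abs_nonneg _
  have hc2 : 0 ≤ (8 / ε + 1) * (C2 * (8 * C3 + 16 * Mr + 1)) := by positivity
  rcases le_total X R1 with hXR | hXR
  · refine (hbdd X hX hXR c).trans ((le_abs_self _).trans ?_)
    nlinarith
  have hXR' : R1' ≤ X := ((le_max_left _ _).trans (le_max_left _ _)).trans hXR
  have hXη : 1 / η₁ ≤ X := ((le_max_right _ _).trans (le_max_left _ _)).trans hXR
  have hXX1 : X1 ≤ X := (le_max_right _ _).trans hXR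
  -- the number of blocks
  have hl2 : 0 < log 2 := log_pos (by norm_num)
  have hlX : 0 ≤ log X := log_nonneg hX
  set n1 : ℕ := ⌈((1 - θ) + ε / 8) * (log X / log 2)⌉₊ with hn1
  have hpow : X ^ ((1 - θ) + ε / 8) = (2 : ℝ) ^ (((1 - θ) + ε / 8) * (log X / log 2)) := by
    rw [rpow_def_of_pos hX0, rpow_def_of_pos (by norm_num : (0 : ℝ) < 2)]
    congr 1
    field_simp
  have hn1a : X ^ ((1 - θ) + ε / 8) ≤ 2 ^ n1 := by
    rw [hpow, ← rpow_natCast]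
    exact rpow_le_rpow_of_exponent_le (by norm_num) (Nat.le_ceil _)
  have hn1b : ∀ n < n1, (2 : ℝ) ^ n ≤ X ^ ((1 - θ) + ε / 8) := by
    intro n hn
    rw [hpow, ← rpow_natCast]
    exact rpow_le_rpow_of_exponent_le (by norm_num) (Nat.lt_ceil.1 hn).le
  have hn1c : (n1 : ℝ) ≤ (8 / ε + 1) * X ^ (ε / 4) := by
    have h1 : (n1 : ℝ) < ((1 - θ) + ε / 8) * (log X / log 2) + 1 := Nat.ceil_lt_add_one (by positivity)
    have h2 : log X ≤ X ^ (ε / 4) / (ε / 4) := log_le_rpow_div hX0.le (by linarith)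
    have h3 : (1 : ℝ) / 2 < log 2 := by
      have := log_two_gt_d9
      linarith
    have h4 : log X / log 2 ≤ 2 * log X := by
      rw [div_le_iff₀ hl2]
      nlinarith
    have h5 : ((1 - θ) + ε / 8) * (log X / log 2) ≤ 2 * log X := by
      have h6 : 0 ≤ log X / log 2 := by positivity
      nlinarith
    have h7 : 1 ≤ X ^ (ε / 4) := one_le_rpow hX (by linarith)
    have h8 : 2 * (X ^ (ε / 4) / (ε / 4)) = 8 / ε * X ^ (ε / 4) := by
      field_simp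
      ring
    calc (n1 : ℝ) ≤ 2 * log X + 1 := by linarith
      _ ≤ 8 / ε * X ^ (ε / 4) + X ^ (ε / 4) := by linarith
      _ = (8 / ε + 1) * X ^ (ε / 4) := by ring
  -- the bounds of the blocks
  set S : ℕ → ℝ := fun K => 8 * (C3 * (X ^ (θ - 1 / 2 + ε / 8) * (K : ℝ) ^ (3 / 2 : ℝ))) + 16 * K * Mr with hS
  set B : ℕ → ℝ := fun n => C2 * (X ^ (1 / 2 : ℝ) * ((2 ^ n : ℕ) : ℝ) ^ (-(3 / 2) : ℝ) * S (2 ^ n) + 1)
    with hB
  have hK1 : ∀ n : ℕ, (1 : ℝ) ≤ ((2 ^ n : ℕ) : ℝ) := by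
    intro n
    push_cast
    exact one_le_pow₀ (by norm_num)
  have hSnn : ∀ K : ℕ, 0 ≤ S K := by
    intro K
    simp only [hS]
    positivity
  have hBle : ∀ n ∈ Finset.range n1, B n ≤ C2 * (8 * C3 + 16 * Mr + 1) * X ^ (θ + ε / 2) := by
    intro n _
    have h1 : X ^ (1 / 2 : ℝ) * ((2 ^ n : ℕ) : ℝ) ^ (-(3 / 2) : ℝ) * S (2 ^ n) ≤
        (8 * C3 + 16 * Mr) * X ^ (θ + ε / 2) := by
      simp only [hS]
      exact blkD ht0 hε hX (hK1 n) hC3 hMr0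
    have h2 : 1 ≤ X ^ (θ + ε / 2) := one_le_rpow hX (by linarith)
    calc B n ≤ C2 * ((8 * C3 + 16 * Mr) * X ^ (θ + ε / 2) + X ^ (θ + ε / 2)) :=
          mul_le_mul_of_nonneg_left (by linarith) hC2.le
      _ = C2 * (8 * C3 + 16 * Mr + 1) * X ^ (θ + ε / 2) := by ring
  have hsum : ∑ n ∈ Finset.range n1, B n ≤
      (8 / ε + 1) * (C2 * (8 * C3 + 16 * Mr + 1)) * X ^ (θ + ε) := by
    refine (Finset.sum_le_sum hBle).trans ?_
    rw [Finset.sum_const, Finset.card_range, nsmul_eq_mul]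
    have h3 : X ^ (ε / 4) * X ^ (θ + ε / 2) ≤ X ^ (θ + ε) := by
      rw [← rpow_add hX0]
      exact rpow_le_rpow_of_exponent_le hX (by linarith)
    calc (n1 : ℝ) * (C2 * (8 * C3 + 16 * Mr + 1) * X ^ (θ + ε / 2)) ≤
        (8 / ε + 1) * X ^ (ε / 4) * (C2 * (8 * C3 + 16 * Mr + 1) * X ^ (θ + ε / 2)) :=
          mul_le_mul_of_nonneg_right hn1c (by positivity)
      _ = (8 / ε + 1) * (C2 * (8 * C3 + 16 * Mr + 1)) * (X ^ (ε / 4) * X ^ (θ + ε / 2)) := by ring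
      _ ≤ _ := mul_le_mul_of_nonneg_left h3 hc2
  have hmain := hblocks X hXR' n1 hn1a B (by
    intro n hn R hR d hd hG c'
    have hR0 : 0 < R := by linarith [hR.1]
    have hdR' : |d / R| ≤ η₁ := by
      rw [abs_div, abs_of_pos hR0, div_le_iff₀ hR0]
      have h1 : 1 ≤ η₁ * X := by
        rw [div_le_iff₀ hη₁] at hXη
        linarith
      have h2 : η₁ * X ≤ η₁ * R := mul_le_mul_of_nonneg_left hR.1 hη₁.le
      linarith
    have hdR : |d / R| ≤ η₀ := hdR'.trans (min_le_left _ _)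
    have hdR1 : |d / R| ≤ 1 := hdR'.trans (min_le_right _ _)
    have hK : (((2 ^ n : ℕ) : ℝ)) ≤ X ^ ((1 - θ) + ε / 8) := by
      push_cast
      exact hn1b n hn
    have hphase : ∀ α : ℝ, |α| ≤ α₀ → ∀ (j : ℕ) (s : Bool), j < 4 → ∀ W : ℝ → ℂ, (∀ x, ‖W x‖ ≤ B₀) →
        (∀ x y, ‖W x - W y‖ ≤ B₀ * |x - y|) → Cond c₁ Bm (oph (gam H α (d / R)) j s) W ∧
          C6m c₁ Bm ω (oph (gam H α (d / R)) j s) := by
      intro α hα j s hj W hw1 hw2
      obtain ⟨k1, k2, k3, _⟩ := hcond α hα (d / R) hdR j s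
      have hpi := Real.pi_lt_four
      have hα2 : |α| ≤ 2 := by linarith
      have k6 := hcond6 α (d / R) hα2 (by linarith) j s hj k2
      have hBB : B₀ ≤ Bm := le_max_left _ _
      refine ⟨⟨k1, k2, fun x hx => (k3 x hx).1.trans hBB, fun x hx => (k3 x hx).2.1.trans hBB,
        fun x hx => (k3 x hx).2.2.trans hBB, fun x => (hw1 x).trans hBB, fun x y => (hw2 x y).trans ?_⟩,
        ⟨k6.sm, k6.lo, fun n h1 h2 x hx => (k6.hi n h1 h2 x hx).trans (le_max_right _ _), k6.md⟩⟩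
      exact mul_le_mul_of_nonneg_right hBB (abs_nonneg _)
    refine hft X R d (S (2 ^ n)) (2 ^ n) hX hR.1 hR.2 hd hG Nat.one_le_two_pow (hSnn _) ?_ ?_ c'
    · intro α hα c''
      have hw : Function.Periodic (fun t => ((rho H (t + α) + d / R : ℝ) : ℂ)) (2 * π) := by
        intro t
        have := rho_per_o3 hH.per α (d / R) t
        simp only at this ⊢
        rw [this]
      have hγ : Function.Periodic (fun t => ga H α t + d / R * cos α) (2 * π) := ga_per_o3 hH.per α _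
      have hM : ∀ t, ‖((rho H (t + α) + d / R : ℝ) : ℂ)‖ ≤ Mr := by
        intro t
        rw [Complex.norm_real]
        exact hMr _ _ hdR1
      simp only [hS]
      refine sqa_oct_gen hw hγ hM Nat.one_le_two_pow ?_ c''
      intro j s hj c3
      obtain ⟨_, _, _, k4, k5, _, _⟩ := hcond α hα (d / R) hdR j s
      obtain ⟨a1, a2⟩ := hphase α hα j s hj _ k4 k5
      exact hoct _ _ a1 a2 X R (2 ^ n) hXX1 hR.1 hR.2 Nat.one_le_two_pow hK 1 (Or.inl rfl) c3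
    · intro α hα c''
      have hw : Function.Periodic (fun _ : ℝ => ((1 : ℝ) : ℂ)) (2 * π) := fun t => rfl
      have hγ : Function.Periodic (fun t => ga H α t + d / R * cos α) (2 * π) := ga_per_o3 hH.per α _
      have hM : ∀ t : ℝ, ‖(fun _ : ℝ => ((1 : ℝ) : ℂ)) t‖ ≤ Mr := by
        intro t
        simpa using hMr1
      simp only [hS]
      refine sqa_oct_gen hw hγ hM Nat.one_le_two_pow ?_ c''
      intro j s hj c3
      obtain ⟨_, _, _, _, _, k6, k7⟩ := hcond α hα (d / R) hdR j s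
      obtain ⟨a1, a2⟩ := hphase α hα j s hj _ k6 k7
      exact hoct _ _ a1 a2 X R (2 ^ n) hXX1 hR.1 hR.2 Nat.one_le_two_pow hK 2 (Or.inr rfl) c3)
    X ⟨le_rfl, by linarith⟩ c
  refine hmain.trans ?_
  have h5 : X ^ (1 - (1 - θ) : ℝ) ≤ X ^ (θ + ε) := rpow_le_rpow_of_exponent_le hX (by linarith)
  have h6 : C1 * X ^ (1 - (1 - θ) : ℝ) ≤ |C1| * X ^ (θ + ε) := by
    refine (mul_le_mul_of_nonneg_right (le_abs_self C1) (by positivity)).trans ?_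
    exact mul_le_mul_of_nonneg_left h5 hc1
  have h7 : 0 ≤ |C4| * X ^ (θ + ε) := by positivity
  calc C1 * X ^ (1 - (1 - θ) : ℝ) + ∑ n ∈ Finset.range n1, B n ≤
      |C1| * X ^ (θ + ε) + (8 / ε + 1) * (C2 * (8 * C3 + 16 * Mr + 1)) * X ^ (θ + ε) := add_le_add h6 hsum
    _ ≤ _ := by linarith

/-- every oval with support function of class `C⁷`, every centre, every radius, from `OctAll θ` -/
theorem main_gen {θ : ℝ} (ht0 : 1 / 2 ≤ θ) (ht1 : θ < 1) (hall : OctAll θ) {H : ℝ → ℝ} (hH : IsSupp H) (h7 : ContDiff ℝ 7 H)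
    {ε : ℝ} (hε : 0 < ε) :
    ∃ C : ℝ, ∀ R : ℝ, 1 ≤ R → ∀ c : ℝ × ℝ, |cntc H c R - area H * R ^ 2| ≤ C * R ^ (θ + ε) := by
  rcases le_total ε (1 / 1000) with h | h
  · exact mainD ht0 ht1 hall hH h7 hε h
  · obtain ⟨C, hC⟩ := mainD ht0 ht1 hall hH h7 (ε := 1 / 1000) (by norm_num) le_rfl
    refine ⟨|C|, fun R hR c => (hC R hR c).trans ?_⟩
    have h1 : R ^ (θ + 1 / 1000 : ℝ) ≤ R ^ (θ + ε) :=
      rpow_le_rpow_of_exponent_le hR (by linarith)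
    refine (mul_le_mul_of_nonneg_right (le_abs_self C) (by positivity)).trans ?_
    exact mul_le_mul_of_nonneg_left h1 (abs_nonneg _)

end Pool.Agent.Helper22.D3
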